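import Pool.Agent.CC624.Defs

/-!
# The limit equations
-/

namespace Pool.Agent.CC624

open Filter Topology

variable {N : ℕ}

/-- the difference of the equations for body `i+1` and body `0` -/
lemma cc_diff {ε : ℝ} {q : Fin (N + 1) → ℂ} {lam : ℝ}
    (h : ∀ i, lam • (q i - centerOfMass (masses N ε) q) =
      ∑ j ∈ Finset.univ.erase i, (masses N ε j * (‖q i - q j‖ ^ 3)⁻¹) • (q i - q j)) (i : Fin N) :
    lam • (q i.succ - q 0) = (‖q i.succ - q 0‖ ^ 3)⁻¹ • (q i.succ - q 0) +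
      ε • (∑ j : Fin N, (‖q i.succ - q j.succ‖ ^ 3)⁻¹ • (q i.succ - q j.succ) +
        ∑ j : Fin N, (‖q j.succ - q 0‖ ^ 3)⁻¹ • (q j.succ - q 0)) := by
  have e : ∀ a : Fin (N + 1), ∑ j ∈ Finset.univ.erase a,
      (masses N ε j * (‖q a - q j‖ ^ 3)⁻¹) • (q a - q j) =
      (‖q a - q 0‖ ^ 3)⁻¹ • (q a - q 0) +
        ε • ∑ j : Fin N, (‖q a - q j.succ‖ ^ 3)⁻¹ • (q a - q j.succ) := by
    intro a
    rw [Finset.sum_erase, Fin.sum_univ_succ, Finset.smul_sum]
    · congr 1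
      · simp [masses]
      · apply Finset.sum_congr rfl
        intro j _
        simp [masses, mul_smul]
    · simp
  have h1 := h i.succ
  have h0 := h 0
  rw [e] at h1 h0
  have h2 : lam • (q i.succ - q 0) = lam • (q i.succ - centerOfMass (masses N ε) q)
      - lam • (q 0 - centerOfMass (masses N ε) q) := by
    rw [← smul_sub]; congr 1; ring
  rw [h2, h1, h0, smul_add]
  have h3 : ∑ j : Fin N, (‖q 0 - q j.succ‖ ^ 3)⁻¹ • (q 0 - q j.succ) =
      - ∑ j : Fin N, (‖q j.succ - q 0‖ ^ 3)⁻¹ • (q j.succ - q 0) := by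
    rw [← Finset.sum_neg_distrib]
    apply Finset.sum_congr rfl
    intro j _
    rw [norm_sub_rev, ← smul_neg, neg_sub]
  rw [h3]
  simp only [sub_self, smul_zero, zero_add, smul_neg]
  abel

/-- Consequences for the limit: with `X_i = Q_{i+1} - Q_0`. -/
theorem limit_equations (hN : 2 ≤ N) {Q : Fin (N + 1) → ℂ} (hQ : IsLimitingCC N Q)
    (hnc : NonCoalescent N Q) :
    ∃ ρ : ℝ, 0 < ρ ∧ (∀ i : Fin N, ‖Q i.succ - Q 0‖ = ρ) ∧
      ∀ i : Fin N, ∑ j : Fin N, ((ρ ^ 3)⁻¹ - (‖Q i.succ - Q j.succ‖ ^ 3)⁻¹) *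
        ((starRingEnd ℂ (Q i.succ - Q 0)) * (Q j.succ - Q 0)).im = 0 := by
  obtain ⟨ε, q, hε, hε0, hcc, hlim⟩ := hQ
  choose hinj lam hlam using hcc
  -- relative positions
  set x : ℕ → Fin N → ℂ := fun k i => q k i.succ - q k 0 with hx
  set X : Fin N → ℂ := fun i => Q i.succ - Q 0 with hX
  have hxX : ∀ i, Tendsto (fun k => x k i) atTop (𝓝 (X i)) := fun i => (hlim _).sub (hlim _)
  have hXne : ∀ i j, i ≠ j → X i ≠ X j := by
    intro i j hij h
    exact hnc i j hij (by simpa [hX] using h)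
  have hx0 : ∀ k i, x k i ≠ 0 := by
    intro k i h
    have := hinj k (sub_eq_zero.1 h)
    exact (Fin.succ_ne_zero i) this
  have hxd : ∀ k i j, q k i.succ - q k (Fin.succ j) = x k i - x k j := by
    intro k i j; simp [hx]
  have heq : ∀ k i, lam k • x k i = (‖x k i‖ ^ 3)⁻¹ • x k i +
      ε k • (∑ j : Fin N, (‖x k i - x k j‖ ^ 3)⁻¹ • (x k i - x k j) +
        ∑ j : Fin N, (‖x k j‖ ^ 3)⁻¹ • x k j) := by
    intro k i
    have := cc_diff (hlam k) i
    simpa only [hxd] using this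
  -- the interaction term converges
  have hA : ∀ i, Tendsto (fun k => ∑ j : Fin N, (‖x k i - x k j‖ ^ 3)⁻¹ • (x k i - x k j)) atTop
      (𝓝 (∑ j : Fin N, (‖X i - X j‖ ^ 3)⁻¹ • (X i - X j))) := by
    intro i
    apply tendsto_finsetSum
    intro j _
    by_cases hij : i = j
    · subst hij; simp
    · have h1 : Tendsto (fun k => x k i - x k j) atTop (𝓝 (X i - X j)) := (hxX i).sub (hxX j)
      have h2 : ‖X i - X j‖ ^ 3 ≠ 0 :=
        pow_ne_zero _ (norm_ne_zero_iff.2 (sub_ne_zero.2 (hXne i j hij)))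
      exact ((h1.norm.pow 3).inv₀ h2).smul h1
  -- Step A : no infinitesimal body tends to the unit mass
  have hX0 : ∀ i, X i ≠ 0 := by
    intro a ha
    obtain ⟨b, hb⟩ : ∃ b : Fin N, b ≠ a := by
      by_cases h : (⟨0, by omega⟩ : Fin N) = a
      · exact ⟨⟨1, by omega⟩, by rw [← h]; simp⟩
      · exact ⟨_, h⟩
    have hXb : ∀ j, j ≠ a → X j ≠ 0 := fun j hj => by rw [← ha]; exact hXne j a hj
    -- t = ‖x_a‖ → 0
    have ht : Tendsto (fun k => ‖x k a‖) atTop (𝓝 0) := by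
      have := (hxX a).norm
      rwa [ha, norm_zero] at this
    have ht2 : Tendsto (fun k => ‖x k a‖ ^ 2) atTop (𝓝 0) := by
      have := ht.pow 2
      simpa using this
    -- the sum over j ≠ a converges
    have hB : Tendsto (fun k => ∑ j ∈ Finset.univ.erase a, (‖x k j‖ ^ 3)⁻¹ • x k j) atTop
        (𝓝 (∑ j ∈ Finset.univ.erase a, (‖X j‖ ^ 3)⁻¹ • X j)) := by
      apply tendsto_finsetSum
      intro j hj
      have hj' : j ≠ a := (Finset.mem_erase.1 hj).1
      have h2 : ‖X j‖ ^ 3 ≠ 0 := pow_ne_zero _ (norm_ne_zero_iff.2 (hXb j hj'))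
      exact (((hxX j).norm.pow 3).inv₀ h2).smul (hxX j)
    have hsplit : ∀ k, ∑ j : Fin N, (‖x k j‖ ^ 3)⁻¹ • x k j =
        ∑ j ∈ Finset.univ.erase a, (‖x k j‖ ^ 3)⁻¹ • x k j + (‖x k a‖ ^ 3)⁻¹ • x k a := by
      intro k
      rw [Finset.sum_erase_add _ _ (Finset.mem_univ a)]
    -- the unit vector in the direction x_a is bounded
    have hu : ∀ k, ‖x k a‖ ^ 2 • ((‖x k a‖ ^ 3)⁻¹ • x k a) = (‖x k a‖)⁻¹ • x k a := by
      intro k
      have : ‖x k a‖ ≠ 0 := norm_ne_zero_iff.2 (hx0 k a)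
      rw [smul_smul]; congr 1; field_simp
    have hun : ∀ k, ‖(‖x k a‖)⁻¹ • x k a‖ = 1 := by
      intro k
      have : ‖x k a‖ ≠ 0 := norm_ne_zero_iff.2 (hx0 k a)
      rw [norm_smul, norm_inv, norm_norm]; field_simp
    have hεu : Tendsto (fun k => ε k • ((‖x k a‖)⁻¹ • x k a)) atTop (𝓝 0) := by
      rw [tendsto_zero_iff_norm_tendsto_zero]
      have : (fun k => ‖ε k • ((‖x k a‖)⁻¹ • x k a)‖) = fun k => |ε k| := by
        funext k
        rw [norm_smul, hun, mul_one, Real.norm_eq_abs]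
      rw [this]
      simpa using hε0.abs
    -- equation b times t^2
    have hlb : Tendsto (fun k => ‖x k a‖ ^ 2 • (lam k • x k b)) atTop (𝓝 0) := by
      have h1 : ∀ k, ‖x k a‖ ^ 2 • (lam k • x k b) =
          ‖x k a‖ ^ 2 • ((‖x k b‖ ^ 3)⁻¹ • x k b) +
          (‖x k a‖ ^ 2 * ε k) • (∑ j : Fin N, (‖x k b - x k j‖ ^ 3)⁻¹ • (x k b - x k j) +
            ∑ j ∈ Finset.univ.erase a, (‖x k j‖ ^ 3)⁻¹ • x k j) +
            ε k • ((‖x k a‖)⁻¹ • x k a) := by
        intro k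
        rw [heq k b, hsplit k, ← hu k]
        simp only [smul_add, smul_smul]
        rw [mul_comm (ε k) (‖x k a‖ ^ 2 * _)]
        module
      simp only [h1]
      have h2 : Tendsto (fun k => (‖x k b‖ ^ 3)⁻¹ • x k b) atTop (𝓝 ((‖X b‖ ^ 3)⁻¹ • X b)) := by
        have h2 : ‖X b‖ ^ 3 ≠ 0 := pow_ne_zero _ (norm_ne_zero_iff.2 (hXb b hb))
        exact (((hxX b).norm.pow 3).inv₀ h2).smul (hxX b)
      have h3 := (ht2.smul h2).add (((ht2.mul hε0).smul ((hA b).add hB)))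
      have h4 := h3.add hεu
      simpa using h4
    have hlt2 : Tendsto (fun k => ‖x k a‖ ^ 2 * lam k) atTop (𝓝 0) := by
      have h1 : Tendsto (fun k => ‖x k b‖⁻¹) atTop (𝓝 (‖X b‖⁻¹)) :=
        (hxX b).norm.inv₀ (norm_ne_zero_iff.2 (hXb b hb))
      have h2 := hlb.norm.mul h1
      rw [norm_zero, zero_mul] at h2
      have h3 : (fun k => ‖‖x k a‖ ^ 2 • (lam k • x k b)‖ * ‖x k b‖⁻¹) =
          fun k => |‖x k a‖ ^ 2 * lam k| := by
        funext k
        have : ‖x k b‖ ≠ 0 := norm_ne_zero_iff.2 (hx0 k b)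
        rw [smul_smul, norm_smul, Real.norm_eq_abs]
        field_simp
      rw [h3] at h2
      exact (tendsto_zero_iff_abs_tendsto_zero _).2 h2
    -- equation a times t^2
    have hla : Tendsto (fun k => (‖x k a‖)⁻¹ • x k a) atTop (𝓝 0) := by
      have h1 : ∀ k, (‖x k a‖)⁻¹ • x k a = (‖x k a‖ ^ 2 * lam k) • x k a -
          (‖x k a‖ ^ 2 * ε k) • (∑ j : Fin N, (‖x k a - x k j‖ ^ 3)⁻¹ • (x k a - x k j) +
            ∑ j ∈ Finset.univ.erase a, (‖x k j‖ ^ 3)⁻¹ • x k j) -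
            ε k • ((‖x k a‖)⁻¹ • x k a) := by
        intro k
        have h2 : (‖x k a‖ ^ 2 * lam k) • x k a = ‖x k a‖ ^ 2 • (lam k • x k a) := by
          rw [smul_smul]
        rw [h2, heq k a, hsplit k, ← hu k]
        simp only [smul_add, smul_smul]
        rw [mul_comm (ε k) (‖x k a‖ ^ 2 * _)]
        module
      have h2 : Tendsto (fun k => (‖x k a‖ ^ 2 * lam k) • x k a) atTop (𝓝 0) := by
        have := hlt2.smul (hxX a)
        simpa using this
      have h3 := ((ht2.mul hε0).smul ((hA a).add hB))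
      have h4 := (h2.sub h3).sub hεu
      simp only [mul_zero, zero_smul, sub_zero] at h4
      exact h4.congr (fun k => (h1 k).symm)
    have := hla.norm
    simp only [hun, norm_zero] at this
    exact one_ne_zero (tendsto_nhds_unique tendsto_const_nhds this)
  -- Step B
  have hI : ∀ i, Tendsto (fun k => (‖x k i‖ ^ 3)⁻¹ ) atTop (𝓝 ((‖X i‖ ^ 3)⁻¹)) := by
    intro i
    exact ((hxX i).norm.pow 3).inv₀ (pow_ne_zero _ (norm_ne_zero_iff.2 (hX0 i)))
  have hB : Tendsto (fun k => ∑ j : Fin N, (‖x k j‖ ^ 3)⁻¹ • x k j) atTop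
      (𝓝 (∑ j : Fin N, (‖X j‖ ^ 3)⁻¹ • X j)) := by
    apply tendsto_finsetSum
    intro j _
    exact (hI j).smul (hxX j)
  have hlamlim : ∀ i, Tendsto lam atTop (𝓝 ((‖X i‖ ^ 3)⁻¹)) := by
    intro i
    have h1 : Tendsto (fun k => ε k • (∑ j : Fin N, (‖x k i - x k j‖ ^ 3)⁻¹ • (x k i - x k j) +
        ∑ j : Fin N, (‖x k j‖ ^ 3)⁻¹ • x k j)) atTop (𝓝 0) := by
      have := hε0.smul ((hA i).add hB)
      simpa using this
    have h2 : ∀ k, (lam k - (‖x k i‖ ^ 3)⁻¹) • x k i =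
        ε k • (∑ j : Fin N, (‖x k i - x k j‖ ^ 3)⁻¹ • (x k i - x k j) +
        ∑ j : Fin N, (‖x k j‖ ^ 3)⁻¹ • x k j) := by
      intro k
      rw [sub_smul, heq k i]; abel
    have h3 : Tendsto (fun k => (lam k - (‖x k i‖ ^ 3)⁻¹) • x k i) atTop (𝓝 0) :=
      h1.congr (fun k => (h2 k).symm)
    have h4 : Tendsto (fun k => lam k - (‖x k i‖ ^ 3)⁻¹) atTop (𝓝 0) := by
      have h5 : Tendsto (fun k => ‖x k i‖⁻¹) atTop (𝓝 (‖X i‖⁻¹)) :=
        (hxX i).norm.inv₀ (norm_ne_zero_iff.2 (hX0 i))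
      have h6 := h3.norm.mul h5
      rw [norm_zero, zero_mul] at h6
      have h7 : (fun k => ‖(lam k - (‖x k i‖ ^ 3)⁻¹) • x k i‖ * ‖x k i‖⁻¹) =
          fun k => |lam k - (‖x k i‖ ^ 3)⁻¹| := by
        funext k
        have : ‖x k i‖ ≠ 0 := norm_ne_zero_iff.2 (hx0 k i)
        rw [norm_smul, Real.norm_eq_abs]
        field_simp
      rw [h7] at h6
      exact (tendsto_zero_iff_abs_tendsto_zero _).2 h6
    have h8 := h4.add (hI i)
    simpa using h8
  let i0 : Fin N := ⟨0, by omega⟩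
  refine ⟨‖X i0‖, norm_pos_iff.2 (hX0 i0), ?_, ?_⟩
  · intro i
    have h1 := tendsto_nhds_unique (hlamlim i) (hlamlim i0)
    have h2 : ‖X i‖ ^ 3 = ‖X i0‖ ^ 3 := inv_injective h1
    exact (pow_left_inj₀ (norm_nonneg _) (norm_nonneg _) (by norm_num)).1 h2
  · intro i
    have hρ : ∀ j, (‖X i0‖ ^ 3)⁻¹ = (‖X j‖ ^ 3)⁻¹ := fun j =>
      tendsto_nhds_unique (hlamlim i0) (hlamlim j)
    -- exact identity
    have h1 : ∀ k, ∑ j : Fin N, ((‖x k j‖ ^ 3)⁻¹ - (‖x k i - x k j‖ ^ 3)⁻¹) *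
        ((starRingEnd ℂ (x k i)) * (x k j)).im = 0 := by
      intro k
      have h2 := congrArg (fun z => ((starRingEnd ℂ (x k i)) * z).im) (heq k i)
      have h3 : ∀ (c : ℝ) (z : ℂ), ((starRingEnd ℂ (x k i)) * (c • z)).im =
          c * ((starRingEnd ℂ (x k i)) * z).im := by
        intro c z
        rw [Complex.real_smul]
        simp only [Complex.mul_im, Complex.mul_re, Complex.ofReal_re, Complex.ofReal_im]
        ring
      have h4 : ((starRingEnd ℂ (x k i)) * x k i).im = 0 := by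
        simp only [Complex.mul_im, Complex.conj_re, Complex.conj_im]; ring
      simp only [mul_add, Complex.add_im, h3, h4, mul_zero, zero_add] at h2
      have h5 : (starRingEnd ℂ (x k i) * ∑ j : Fin N, (‖x k i - x k j‖ ^ 3)⁻¹ • (x k i - x k j)).im +
        (starRingEnd ℂ (x k i) * ∑ j : Fin N, (‖x k j‖ ^ 3)⁻¹ • x k j).im = 0 := by
        have h6 := (hε k).ne'
        rw [← mul_add] at h2
        exact (mul_eq_zero.1 h2.symm).resolve_left h6
      rw [← h5, Finset.mul_sum, Finset.mul_sum, Complex.im_sum, Complex.im_sum,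
        ← Finset.sum_add_distrib]
      apply Finset.sum_congr rfl
      intro j _
      have h7 : ((starRingEnd ℂ (x k i)) * (x k i - x k j)).im =
          -((starRingEnd ℂ (x k i)) * x k j).im := by
        rw [mul_sub (starRingEnd ℂ (x k i)) (x k i) (x k j), Complex.sub_im, h4]; ring
      rw [h3, h3, h7]
      ring
    have h2 : Tendsto (fun k => ∑ j : Fin N, ((‖x k j‖ ^ 3)⁻¹ - (‖x k i - x k j‖ ^ 3)⁻¹) *
        ((starRingEnd ℂ (x k i)) * (x k j)).im) atTop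
        (𝓝 (∑ j : Fin N, ((‖X j‖ ^ 3)⁻¹ - (‖X i - X j‖ ^ 3)⁻¹) *
        ((starRingEnd ℂ (X i)) * (X j)).im)) := by
      apply tendsto_finsetSum
      intro j _
      by_cases hij : i = j
      · subst hij
        have h4 : ∀ z : ℂ, ((starRingEnd ℂ z) * z).im = 0 := by
          intro z; simp only [Complex.mul_im, Complex.conj_re, Complex.conj_im]; ring
        simp only [h4, mul_zero]
        exact tendsto_const_nhds
      · have h3 : Tendsto (fun k => x k i - x k j) atTop (𝓝 (X i - X j)) := (hxX i).sub (hxX j)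
        have h4 : ‖X i - X j‖ ^ 3 ≠ 0 :=
          pow_ne_zero _ (norm_ne_zero_iff.2 (sub_ne_zero.2 (hXne i j hij)))
        have h5 := (h3.norm.pow 3).inv₀ h4
        have h6 : Tendsto (fun k => ((starRingEnd ℂ (x k i)) * (x k j)).im) atTop
            (𝓝 ((starRingEnd ℂ (X i)) * (X j)).im) :=
          (Complex.continuous_im.tendsto _).comp
            (((Complex.continuous_conj.tendsto _).comp (hxX i)).mul (hxX j))
        exact ((hI j).sub h5).mul h6
    have h3 : ∑ j : Fin N, ((‖X j‖ ^ 3)⁻¹ - (‖X i - X j‖ ^ 3)⁻¹) *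
        ((starRingEnd ℂ (X i)) * (X j)).im = 0 := by
      have h4 : (fun k => ∑ j : Fin N, ((‖x k j‖ ^ 3)⁻¹ - (‖x k i - x k j‖ ^ 3)⁻¹) *
        ((starRingEnd ℂ (x k i)) * (x k j)).im) = fun _ => 0 := funext h1
      rw [h4] at h2
      exact (tendsto_nhds_unique h2 tendsto_const_nhds)
    rw [← h3]
    apply Finset.sum_congr rfl
    intro j _
    rw [hρ j]
    have : Q i.succ - Q j.succ = X i - X j := by simp [hX]
    rw [this]

end Pool.Agent.CC624
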