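import Pool.Agent.CC624.Circle
import Pool.Agent.CC624.Limit

/-!
# From the limit equations to the equations on the circle
-/

namespace Pool.Agent.CC624

open Real

/-- `G x = sin x / (8 |sin (x/2)|^3)` -/
noncomputable def G (x : ℝ) : ℝ := sin x * (8 * |sin (x / 2)| ^ 3)⁻¹

lemma G_periodic : Function.Periodic G (2 * π) := by
  intro x
  unfold G
  rw [Real.sin_add_two_pi, show (x + 2 * π) / 2 = x / 2 + π by ring, Real.sin_add_pi, abs_neg]

lemma G_zero : G 0 = 0 := by simp [G]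

lemma G_eq_F {x : ℝ} (hx : x ∈ Set.Ioo 0 (2 * π)) : G x = F x := by
  have hs : 0 < sin (x / 2) :=
    Real.sin_pos_of_pos_of_lt_pi (by linarith [hx.1]) (by linarith [hx.2])
  have h2 : sin x = 2 * sin (x / 2) * cos (x / 2) := by
    rw [← Real.sin_two_mul]; ring_nf
  unfold G F
  rw [abs_of_pos hs, h2]
  field_simp
  ring

/-- The theorem on the circle, for `N` angles indexed by `Fin N`.
The threshold is a parameter: `hmain` is the theorem for sorted periodic sequences. -/
theorem circle_fin {N : ℕ} (hN0 : 0 < N)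
    (hmain : ∀ (θ : ℕ → ℝ), StrictMono θ → (∀ i, θ (i + N) = θ i + 2 * π) → ∀ r : ℝ, 0 ≤ r →
      ∑ i ∈ Finset.range N, sin (θ i) = 0 → ∑ i ∈ Finset.range N, cos (θ i) = r →
      (∀ i, ∑ k ∈ Finset.Ico 1 N, F (dd θ i k) = -r * sin (θ i)) →
      ∀ i, θ (i + 1) - θ i = 2 * π / N)
    (φ : Fin N → ℝ)
    (hφ : ∀ i, φ i ∈ Set.Ico 0 (2 * π)) (hinj : Function.Injective φ) {r : ℝ} (hr : 0 ≤ r)
    (hsin : ∑ i, sin (φ i) = 0) (hcos : ∑ i, cos (φ i) = r)
    (heq : ∀ i, ∑ j, G (φ j - φ i) = -r * sin (φ i)) :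
    ∃ (σ : Equiv.Perm (Fin N)) (c : ℝ), ∀ k : Fin N, φ (σ k) = c + 2 * π * k / N := by
  have hpi := Real.pi_pos
  set σ := Tuple.sort φ with hσ
  have hsm : StrictMono (φ ∘ σ) :=
    (Tuple.monotone_sort φ).strictMono_of_injective (hinj.comp σ.injective)
  set θ : ℕ → ℝ := fun i => φ (σ ⟨i % N, Nat.mod_lt _ hN0⟩) + (i / N : ℕ) * (2 * π) with hθ
  have hθfin : ∀ k : Fin N, θ k = φ (σ k) := by
    intro k
    have h1 : (k : ℕ) / N = 0 := Nat.div_eq_of_lt k.2
    have h2 : (⟨(k : ℕ) % N, Nat.mod_lt _ hN0⟩ : Fin N) = k := by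
      apply Fin.ext; simp [Nat.mod_eq_of_lt k.2]
    simp only [hθ, h1, h2]; simp
  have hper : ∀ i, θ (i + N) = θ i + 2 * π := by
    intro i
    have h1 : (i + N) / N = i / N + 1 := Nat.add_div_right i hN0
    have h2 : (⟨(i + N) % N, Nat.mod_lt _ hN0⟩ : Fin N) = ⟨i % N, Nat.mod_lt _ hN0⟩ := by
      apply Fin.ext; simp
    simp only [hθ, h1, h2]; push_cast; ring
  have hmono : StrictMono θ := by
    intro i j hij
    rcases lt_or_eq_of_le (Nat.div_le_div_right (c := N) hij.le) with h | h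
    · have h1 := (hφ (σ ⟨i % N, Nat.mod_lt _ hN0⟩)).2
      have h2 := (hφ (σ ⟨j % N, Nat.mod_lt _ hN0⟩)).1
      have h3 : ((i / N : ℕ) : ℝ) + 1 ≤ ((j / N : ℕ) : ℝ) := by exact_mod_cast h
      have h4 : (((i / N : ℕ) : ℝ) + 1) * (2 * π) ≤ ((j / N : ℕ) : ℝ) * (2 * π) :=
        mul_le_mul_of_nonneg_right h3 (by positivity)
      simp only [hθ]
      linarith
    · have h1 : i % N < j % N := by
        have h2 := Nat.div_add_mod i N
        have h3 := Nat.div_add_mod j N
        rw [h] at h2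
        omega
      have h2 := hsm (show (⟨i % N, Nat.mod_lt _ hN0⟩ : Fin N) < ⟨j % N, Nat.mod_lt _ hN0⟩ from h1)
      simp only [Function.comp] at h2
      simp only [hθ, h]
      linarith
  have hsum : ∀ f : ℝ → ℝ, ∑ i ∈ Finset.range N, f (θ i) = ∑ i, f (φ i) := by
    intro f
    rw [Finset.sum_range]
    simp only [hθfin]
    exact Equiv.sum_comp σ (fun i => f (φ i))
  have hcirc := hmain θ hmono hper r hr (by rw [hsum, hsin]) (by rw [hsum, hcos]) (by
    intro i
    set a : Fin N := σ ⟨i % N, Nat.mod_lt _ hN0⟩ with ha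
    have hi : θ i = φ a + (i / N : ℕ) * (2 * π) := rfl
    have h1 : ∑ k ∈ Finset.Ico 1 N, F (dd θ i k) = ∑ k ∈ Finset.range N, G (θ (k + i) - θ i) := by
      rw [Finset.range_eq_Ico, Finset.sum_eq_sum_Ico_succ_bot hN0]
      simp only [zero_add, sub_self, G_zero]
      apply Finset.sum_congr rfl
      intro k hk
      rw [← G_eq_F (dd_mem hmono hper hk i), dd, add_comm i k]
    have h2 : ∑ k ∈ Finset.range N, G (θ (k + i) - θ i) = ∑ k ∈ Finset.range N, G (θ k - θ i) :=
      sum_shift (fun m => G (θ m - θ i)) (fun m => by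
        show G (θ (m + N) - θ i) = G (θ m - θ i)
        rw [hper, show θ m + 2 * π - θ i = (θ m - θ i) + 2 * π by ring, G_periodic]) i
    have h3 : ∑ k ∈ Finset.range N, G (θ k - θ i) = ∑ j, G (φ j - θ i) :=
      hsum (fun x => G (x - θ i))
    have h4 : ∀ j, G (φ j - θ i) = G (φ j - φ a) := by
      intro j
      rw [hi, show φ j - (φ a + (i / N : ℕ) * (2 * π)) = (φ j - φ a) - (i / N : ℕ) * (2 * π) by ring]
      exact G_periodic.sub_nat_mul_eq _
    rw [h1, h2, h3]
    simp only [h4]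
    rw [heq a, hi, Real.sin_add_nat_mul_two_pi])
  refine ⟨σ, θ 0, ?_⟩
  have hlin : ∀ k : ℕ, θ k = θ 0 + 2 * π * k / N := by
    intro k
    induction k with
    | zero => simp
    | succ k ih =>
      have := hcirc k
      push_cast
      rw [show θ (k + 1) = θ k + 2 * π / N by linarith, ih]
      ring
  intro k
  rw [← hθfin, hlin]

/-- Points on a circle satisfying the limit equations form a regular polygon. -/
theorem regular_of_limit_equations {N : ℕ} (hN0 : 0 < N)
    (hmain : ∀ (θ : ℕ → ℝ), StrictMono θ → (∀ i, θ (i + N) = θ i + 2 * π) → ∀ r : ℝ, 0 ≤ r →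
      ∑ i ∈ Finset.range N, sin (θ i) = 0 → ∑ i ∈ Finset.range N, cos (θ i) = r →
      (∀ i, ∑ k ∈ Finset.Ico 1 N, F (dd θ i k) = -r * sin (θ i)) →
      ∀ i, θ (i + 1) - θ i = 2 * π / N)
    (X : Fin N → ℂ) (hinj : Function.Injective X) {ρ : ℝ} (hρ : 0 < ρ) (hX : ∀ i, ‖X i‖ = ρ)
    (heq : ∀ i, ∑ j, ((ρ ^ 3)⁻¹ - (‖X i - X j‖ ^ 3)⁻¹) * ((starRingEnd ℂ (X i)) * X j).im = 0) :
    ∃ (a : ℂ) (σ : Equiv.Perm (Fin N)), a ≠ 0 ∧
      ∀ k : Fin N, X (σ k) = a * Complex.exp (2 * Real.pi * Complex.I * k / N) := by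
  have hpi := Real.pi_pos
  set S : ℂ := ∑ i, X i with hS
  set α : ℝ := S.arg with hα
  have hSpol : S = ‖S‖ * Complex.exp (α * Complex.I) := (Complex.norm_mul_exp_arg_mul_I S).symm
  -- the angles
  set Y : Fin N → ℂ := fun i => X i * Complex.exp (-(α * Complex.I)) / ρ with hY
  have hρ' : (ρ : ℂ) ≠ 0 := by exact_mod_cast hρ.ne'
  have hYn : ∀ i, ‖Y i‖ = 1 := by
    intro i
    have h1 : ‖Complex.exp (-(α * Complex.I))‖ = 1 := by
      rw [show -((α : ℂ) * Complex.I) = ((-α : ℝ) : ℂ) * Complex.I by push_cast; ring]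
      exact Complex.norm_exp_ofReal_mul_I _
    simp only [hY]
    rw [norm_div, norm_mul, h1, hX, Complex.norm_real, Real.norm_eq_abs, abs_of_pos hρ]
    field_simp
  set φ : Fin N → ℝ := fun i => toIcoMod Real.two_pi_pos 0 (Y i).arg with hφdef
  have hφmem : ∀ i, φ i ∈ Set.Ico 0 (2 * π) := by
    intro i
    have := toIcoMod_mem_Ico Real.two_pi_pos 0 (Y i).arg
    simpa using this
  have hφexp : ∀ i, Complex.exp (φ i * Complex.I) = Y i := by
    intro i
    have h1 : φ i = (Y i).arg - toIcoDiv Real.two_pi_pos 0 (Y i).arg * (2 * π) := by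
      simp only [hφdef, toIcoMod, zsmul_eq_mul]
    have h2 : (φ i : ℂ) * Complex.I = (Y i).arg * Complex.I -
        (toIcoDiv Real.two_pi_pos 0 (Y i).arg : ℤ) * (2 * π * Complex.I) := by
      rw [h1]; push_cast; ring
    rw [h2, Complex.exp_sub, Complex.exp_int_mul_two_pi_mul_I, div_one]
    have h3 := Complex.norm_mul_exp_arg_mul_I (Y i)
    rw [hYn] at h3
    simpa using h3
  have hXexp : ∀ i, X i = ρ * Complex.exp (α * Complex.I) * Complex.exp (φ i * Complex.I) := by
    intro i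
    rw [hφexp]
    simp only [hY]
    have : Complex.exp (α * Complex.I) * Complex.exp (-(α * Complex.I)) = 1 := by
      rw [← Complex.exp_add]; simp
    field_simp
    linear_combination (-X i) * this
  have hφinj : Function.Injective φ := by
    intro i j h
    apply hinj
    rw [hXexp i, hXexp j, h]
  -- the sum of the unit vectors
  have hsum : ∑ i, Complex.exp (φ i * Complex.I) = ((‖S‖ / ρ : ℝ) : ℂ) := by
    have h1 : ρ * Complex.exp (α * Complex.I) * ∑ i, Complex.exp (φ i * Complex.I) =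
        ‖S‖ * Complex.exp (α * Complex.I) := by
      rw [Finset.mul_sum, ← hSpol, hS]
      apply Finset.sum_congr rfl
      intro i _
      exact (hXexp i).symm
    have h2 : Complex.exp (α * Complex.I) ≠ 0 := Complex.exp_ne_zero _
    have h3 : Complex.exp (α * Complex.I) * (ρ * ∑ i, Complex.exp (φ i * Complex.I) - ‖S‖) = 0 := by
      linear_combination h1
    have h4 : ρ * ∑ i, Complex.exp (φ i * Complex.I) = ‖S‖ :=
      sub_eq_zero.1 ((mul_eq_zero.1 h3).resolve_left h2)
    push_cast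
    rw [eq_div_iff hρ', mul_comm]
    exact h4
  have hcos : ∑ i, cos (φ i) = ‖S‖ / ρ := by
    have := congrArg Complex.re hsum
    simpa only [Complex.re_sum, Complex.exp_ofReal_mul_I_re, Complex.ofReal_re] using this
  have hsin : ∑ i, sin (φ i) = 0 := by
    have := congrArg Complex.im hsum
    simpa only [Complex.im_sum, Complex.exp_ofReal_mul_I_im, Complex.ofReal_im] using this
  -- distances
  have hdist : ∀ i j, ‖X i - X j‖ = ρ * (2 * |sin ((φ j - φ i) / 2)|) := by
    intro i j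
    have h1 : X i - X j = -(ρ * Complex.exp (α * Complex.I) * Complex.exp (φ i * Complex.I) *
        (Complex.exp (Complex.I * ((φ j - φ i : ℝ) : ℂ)) - 1)) := by
      rw [hXexp i, hXexp j]
      have : Complex.exp (φ j * Complex.I) = Complex.exp (φ i * Complex.I) *
          Complex.exp (Complex.I * ((φ j - φ i : ℝ) : ℂ)) := by
        rw [← Complex.exp_add]; congr 1; push_cast; ring
      rw [this]; ring
    rw [h1, norm_neg, norm_mul, norm_mul, norm_mul, Complex.norm_exp_ofReal_mul_I,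
      Complex.norm_exp_ofReal_mul_I, Complex.norm_real, Real.norm_eq_abs, abs_of_pos hρ,
      Complex.norm_exp_I_mul_ofReal_sub_one, Real.norm_eq_abs, abs_mul, abs_of_pos (by norm_num : (0:ℝ) < 2)]
    ring
  have hwedge : ∀ i j, ((starRingEnd ℂ (X i)) * X j).im = ρ ^ 2 * sin (φ j - φ i) := by
    intro i j
    have h1 : (starRingEnd ℂ (X i)) * X j = ((ρ ^ 2 : ℝ) : ℂ) *
        Complex.exp (((φ j - φ i : ℝ) : ℂ) * Complex.I) := by
      rw [hXexp i, hXexp j]
      rw [map_mul, map_mul, Complex.conj_ofReal, ← Complex.exp_conj, ← Complex.exp_conj,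
        map_mul, map_mul, Complex.conj_I, Complex.conj_ofReal, Complex.conj_ofReal]
      have h2 : Complex.exp (α * -Complex.I) * Complex.exp (α * Complex.I) = 1 := by
        rw [← Complex.exp_add]; simp
      have h3 : Complex.exp (((φ j - φ i : ℝ) : ℂ) * Complex.I) =
          Complex.exp (φ i * -Complex.I) * Complex.exp (φ j * Complex.I) := by
        rw [← Complex.exp_add]; congr 1; push_cast; ring
      rw [h3]
      push_cast
      linear_combination (ρ ^ 2 * Complex.exp (φ i * -Complex.I) * Complex.exp (φ j * Complex.I)) * h2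
    rw [h1, Complex.im_ofReal_mul, Complex.exp_ofReal_mul_I_im]
  have hG : ∀ i, ∑ j, G (φ j - φ i) = -(‖S‖ / ρ) * sin (φ i) := by
    intro i
    have h1 := heq i
    have h2 : ∀ j, ((ρ ^ 3)⁻¹ - (‖X i - X j‖ ^ 3)⁻¹) * ((starRingEnd ℂ (X i)) * X j).im =
        ρ⁻¹ * (sin (φ j - φ i) - G (φ j - φ i)) := by
      intro j
      rw [hdist, hwedge, G]
      have h3 : (ρ * (2 * |sin ((φ j - φ i) / 2)|)) ^ 3 =
          ρ ^ 3 * (8 * |sin ((φ j - φ i) / 2)| ^ 3) := by ring
      rw [h3, mul_inv]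
      generalize (8 * |sin ((φ j - φ i) / 2)| ^ 3)⁻¹ = w
      field_simp
    simp only [h2] at h1
    rw [← Finset.mul_sum, Finset.sum_sub_distrib] at h1
    have h3 : ∑ j, sin (φ j - φ i) = -(‖S‖ / ρ) * sin (φ i) := by
      simp only [Real.sin_sub]
      rw [Finset.sum_sub_distrib, ← Finset.sum_mul, ← Finset.sum_mul, hsin, hcos]
      ring
    have h4 := (mul_eq_zero.1 h1).resolve_left (inv_ne_zero hρ.ne')
    rw [← h3]
    linarith
  obtain ⟨σ, c, hσ⟩ := circle_fin hN0 hmain φ hφmem hφinj (by positivity) hsin hcos hG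
  refine ⟨ρ * Complex.exp (α * Complex.I) * Complex.exp (c * Complex.I), σ, ?_, ?_⟩
  · exact mul_ne_zero (mul_ne_zero hρ' (Complex.exp_ne_zero _)) (Complex.exp_ne_zero _)
  · intro k
    rw [hXexp, hσ, show ((c + 2 * π * k / N : ℝ) : ℂ) * Complex.I =
      c * Complex.I + 2 * Real.pi * Complex.I * k / N by push_cast; ring, Complex.exp_add]
    ring

theorem main_of_circle {N : ℕ} (hN : 2 ≤ N)
    (hmain : ∀ (θ : ℕ → ℝ), StrictMono θ → (∀ i, θ (i + N) = θ i + 2 * π) → ∀ r : ℝ, 0 ≤ r →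
      ∑ i ∈ Finset.range N, sin (θ i) = 0 → ∑ i ∈ Finset.range N, cos (θ i) = r →
      (∀ i, ∑ k ∈ Finset.Ico 1 N, F (dd θ i k) = -r * sin (θ i)) →
      ∀ i, θ (i + 1) - θ i = 2 * π / N)
    (Q : Fin (N + 1) → ℂ) (hQ : IsLimitingCC N Q) (hnc : NonCoalescent N Q) :
    IsRegularNGon N Q := by
  obtain ⟨ρ, hρ, hn, he⟩ := limit_equations hN hQ hnc
  have hinj : Function.Injective (fun i : Fin N => Q i.succ - Q 0) := by
    intro i j h
    by_contra hij
    exact hnc i j hij (sub_left_injective h)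
  obtain ⟨a, σ, ha, hσ⟩ := regular_of_limit_equations (by omega : 0 < N) hmain
    (fun i : Fin N => Q i.succ - Q 0) hinj hρ hn (by
      intro i
      rw [← he i]
      apply Finset.sum_congr rfl
      intro j _
      rw [show Q i.succ - Q 0 - (Q j.succ - Q 0) = Q i.succ - Q j.succ by ring])
  refine ⟨a, σ, ha, fun k => ?_⟩
  have h := hσ k
  rw [← h]; ring

end Pool.Agent.CC624
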